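import Pool.Agent.Helper16.RC.Defs

/-! Row CH of `Helper16/RC/Defs` -/

set_option autoImplicit false

open MeasureTheory

namespace Pool.Agent.Helper16.RC

theorem ccv_cos : ConcaveOn ℝ Set.univ (fun x : ℝ => Real.cos x - x ^ 2 / 2) := by
  have h1 : ∀ x : ℝ, HasDerivAt (fun x : ℝ => Real.cos x - x ^ 2 / 2) (-Real.sin x - x) x := by
    intro x
    have := (Real.hasDerivAt_cos x).sub (((hasDerivAt_id x).pow 2).div_const 2)
    refine this.congr_deriv ?_
    simp
  have h2 : deriv (fun x : ℝ => Real.cos x - x ^ 2 / 2) = fun x => -Real.sin x - x := by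
    ext x; exact (h1 x).deriv
  have h3 : ∀ x : ℝ, HasDerivAt (fun x : ℝ => -Real.sin x - x) (-Real.cos x - 1) x := by
    intro x
    exact ((Real.hasDerivAt_sin x).neg).sub (hasDerivAt_id x)
  apply concaveOn_univ_of_deriv2_nonpos
  · intro x; exact (h1 x).differentiableAt
  · rw [h2]; intro x; exact (h3 x).differentiableAt
  · intro x
    show deriv (deriv (fun x : ℝ => Real.cos x - x ^ 2 / 2)) x ≤ 0
    rw [h2, (h3 x).deriv]
    linarith [Real.neg_one_le_cos x]

theorem JK (x : ℝ) : J x - x ^ 2 / 4 =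
    (2 * Real.pi)⁻¹ * ∫ θ in (0:ℝ)..(2 * Real.pi),
      (Real.cos (x * Real.sin θ) - (x * Real.sin θ) ^ 2 / 2) := by
  have hpi := Real.pi_pos
  rw [intervalIntegral.integral_sub]
  · have h1 : ∫ θ in (0:ℝ)..(2 * Real.pi), (x * Real.sin θ) ^ 2 / 2 = x ^ 2 / 2 * Real.pi := by
      have : ∀ θ : ℝ, (x * Real.sin θ) ^ 2 / 2 = x ^ 2 / 2 * Real.sin θ ^ 2 := by
        intro θ; ring
      simp_rw [this]
      rw [intervalIntegral.integral_const_mul, integral_sin_sq]
      simp
    rw [h1, J]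
    field_simp
    ring
  · exact (by fun_prop : Continuous fun θ : ℝ => Real.cos (x * Real.sin θ)).intervalIntegrable _ _
  · exact (by fun_prop : Continuous fun θ : ℝ => (x * Real.sin θ) ^ 2 / 2).intervalIntegrable _ _

theorem ccv_J {l m a b : ℝ} (hl : 0 ≤ l) (hm : 0 ≤ m) (hlm : l + m = 1) :
    l * (J a - a ^ 2 / 4) + m * (J b - b ^ 2 / 4) ≤
      J (l * a + m * b) - (l * a + m * b) ^ 2 / 4 := by
  rw [JK, JK, JK]
  have hc : ∀ x : ℝ, IntervalIntegrable
      (fun θ : ℝ => Real.cos (x * Real.sin θ) - (x * Real.sin θ) ^ 2 / 2) volume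
      0 (2 * Real.pi) := fun x =>
    (by fun_prop : Continuous
      fun θ : ℝ => Real.cos (x * Real.sin θ) - (x * Real.sin θ) ^ 2 / 2).intervalIntegrable _ _
  have h1 : l * ((2 * Real.pi)⁻¹ * ∫ θ in (0:ℝ)..(2 * Real.pi),
      (Real.cos (a * Real.sin θ) - (a * Real.sin θ) ^ 2 / 2)) +
      m * ((2 * Real.pi)⁻¹ * ∫ θ in (0:ℝ)..(2 * Real.pi),
      (Real.cos (b * Real.sin θ) - (b * Real.sin θ) ^ 2 / 2)) =
      (2 * Real.pi)⁻¹ * ∫ θ in (0:ℝ)..(2 * Real.pi),
        (l * (Real.cos (a * Real.sin θ) - (a * Real.sin θ) ^ 2 / 2) +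
          m * (Real.cos (b * Real.sin θ) - (b * Real.sin θ) ^ 2 / 2)) := by
    rw [intervalIntegral.integral_add ((hc a).const_mul l) ((hc b).const_mul m),
      intervalIntegral.integral_const_mul, intervalIntegral.integral_const_mul]
    ring
  rw [h1]
  apply mul_le_mul_of_nonneg_left _ (by have := Real.pi_pos; positivity)
  apply intervalIntegral.integral_mono_on (by have := Real.pi_pos; positivity)
    (((hc a).const_mul l).add ((hc b).const_mul m)) (hc _)
  intro θ _
  have h := ccv_cos.2 (Set.mem_univ (a * Real.sin θ)) (Set.mem_univ (b * Real.sin θ)) hl hm hlm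
  simp only [smul_eq_mul] at h
  have e : l * (a * Real.sin θ) + m * (b * Real.sin θ) = (l * a + m * b) * Real.sin θ := by ring
  rw [e] at h
  exact h

theorem st_CH : ST_CH := by
  intro a b s has hsb
  rcases eq_or_lt_of_le (has.trans hsb) with hab | hab
  · have h1 : s = a := le_antisymm (hab ▸ hsb) has
    subst h1
    have : 0 ≤ (b - s) ^ 2 := sq_nonneg _
    have h2 := min_le_left (F s) (F b)
    linarith
  · set l : ℝ := (b - s) / (b - a) with hl
    set m : ℝ := (s - a) / (b - a) with hm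
    have hba : 0 < b - a := by linarith
    have hl0 : 0 ≤ l := div_nonneg (by linarith) hba.le
    have hm0 : 0 ≤ m := div_nonneg (by linarith) hba.le
    have hlm : l + m = 1 := by rw [hl, hm]; field_simp; ring
    have hs : s = l * a + m * b := by rw [hl, hm]; field_simp; ring
    have key : ∀ d : ℝ, l * (J (d * a) - (d * a) ^ 2 / 4) + m * (J (d * b) - (d * b) ^ 2 / 4) ≤
        J (d * s) - (d * s) ^ 2 / 4 := by
      intro d
      have h := ccv_J (a := d * a) (b := d * b) hl0 hm0 hlm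
      have e : l * (d * a) + m * (d * b) = d * s := by rw [hs]; ring
      rwa [e] at h
    have k1 := key 1
    have k2 := key √2
    have k4 := key 2
    have k5 := key √5
    have k8 := key √8
    have q2 : √2 ^ 2 = (2 : ℝ) := Real.sq_sqrt (by norm_num)
    have q5 : √5 ^ 2 = (5 : ℝ) := Real.sq_sqrt (by norm_num)
    have q8 : √8 ^ 2 = (8 : ℝ) := Real.sq_sqrt (by norm_num)
    simp only [mul_pow, one_mul, q2, q5, q8] at k1 k2 k4 k5 k8
    have hF : l * (F a - 546 * a ^ 2) + m * (F b - 546 * b ^ 2) ≤ F s - 546 * s ^ 2 := by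
      simp only [F]
      have e0 : l * (699 / 10 : ℝ) + m * (699 / 10) = 699 / 10 := by
        rw [← add_mul, hlm, one_mul]
      linarith
    have h1 : l * min (F a) (F b) + m * min (F a) (F b) = min (F a) (F b) := by
      rw [← add_mul, hlm, one_mul]
    have h2 : l * min (F a) (F b) ≤ l * F a := mul_le_mul_of_nonneg_left (min_le_left _ _) hl0
    have h3 : m * min (F a) (F b) ≤ m * F b := mul_le_mul_of_nonneg_left (min_le_right _ _) hm0
    have h4 : l * a ^ 2 + m * b ^ 2 - s ^ 2 = l * m * (b - a) ^ 2 := by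
      have : m = 1 - l := by linarith
      rw [hs, this]; ring
    have h5 : l * m ≤ 1 / 4 := by nlinarith [sq_nonneg (l - m)]
    have h6 : l * m * (b - a) ^ 2 ≤ 1 / 4 * (b - a) ^ 2 :=
      mul_le_mul_of_nonneg_right h5 (sq_nonneg _)
    nlinarith

end Pool.Agent.Helper16.RC
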