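import Pool.Agent.Helper51.RC.CH

/-! Row DEC of `Helper16/RC/Defs` -/

set_option autoImplicit false

open MeasureTheory Set

namespace Pool.Agent.Helper16.RC

theorem dcosw {w : ℝ → ℝ} (hw : Continuous w) (s : ℝ) :
    HasDerivAt (fun s : ℝ => ∫ θ in (0:ℝ)..(2 * Real.pi), w θ * Real.cos (s * Real.sin θ))
      (∫ θ in (0:ℝ)..(2 * Real.pi), w θ * (-(Real.sin (s * Real.sin θ)) * Real.sin θ)) s := by
  refine (intervalIntegral.hasDerivAt_integral_of_dominated_loc_of_deriv_le
    (F := fun s θ => w θ * Real.cos (s * Real.sin θ))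
    (F' := fun s θ => w θ * (-(Real.sin (s * Real.sin θ)) * Real.sin θ))
    (bound := fun θ => |w θ|) (s := univ) Filter.univ_mem ?_ ?_ ?_ ?_ ?_ ?_).2
  · exact Filter.Eventually.of_forall fun x => (by fun_prop : Continuous
      fun θ : ℝ => w θ * Real.cos (x * Real.sin θ)).aestronglyMeasurable
  · exact (by fun_prop : Continuous
      fun θ : ℝ => w θ * Real.cos (s * Real.sin θ)).intervalIntegrable _ _
  · exact (by fun_prop : Continuous
      fun θ : ℝ => w θ * (-(Real.sin (s * Real.sin θ)) * Real.sin θ)).aestronglyMeasurable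
  · refine Filter.Eventually.of_forall fun θ _ x _ => ?_
    rw [Real.norm_eq_abs, abs_mul, abs_mul, abs_neg]
    have h1 := Real.abs_sin_le_one (x * Real.sin θ)
    have h2 := Real.abs_sin_le_one θ
    have h3 : |Real.sin (x * Real.sin θ)| * |Real.sin θ| ≤ 1 :=
      mul_le_one₀ h1 (abs_nonneg _) h2
    exact mul_le_of_le_one_right (abs_nonneg _) h3
  · exact (by fun_prop : Continuous fun θ : ℝ => |w θ|).intervalIntegrable _ _
  · refine Filter.Eventually.of_forall fun θ _ x _ => ?_
    have h := ((hasDerivAt_id x).mul_const (Real.sin θ)).cos.const_mul (w θ)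
    refine h.congr_deriv ?_
    simp

theorem dsinw {w : ℝ → ℝ} (hw : Continuous w) (s : ℝ) :
    HasDerivAt (fun s : ℝ => ∫ θ in (0:ℝ)..(2 * Real.pi), w θ * Real.sin (s * Real.sin θ))
      (∫ θ in (0:ℝ)..(2 * Real.pi), w θ * (Real.cos (s * Real.sin θ) * Real.sin θ)) s := by
  refine (intervalIntegral.hasDerivAt_integral_of_dominated_loc_of_deriv_le
    (F := fun s θ => w θ * Real.sin (s * Real.sin θ))
    (F' := fun s θ => w θ * (Real.cos (s * Real.sin θ) * Real.sin θ))
    (bound := fun θ => |w θ|) (s := univ) Filter.univ_mem ?_ ?_ ?_ ?_ ?_ ?_).2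
  · exact Filter.Eventually.of_forall fun x => (by fun_prop : Continuous
      fun θ : ℝ => w θ * Real.sin (x * Real.sin θ)).aestronglyMeasurable
  · exact (by fun_prop : Continuous
      fun θ : ℝ => w θ * Real.sin (s * Real.sin θ)).intervalIntegrable _ _
  · exact (by fun_prop : Continuous
      fun θ : ℝ => w θ * (Real.cos (s * Real.sin θ) * Real.sin θ)).aestronglyMeasurable
  · refine Filter.Eventually.of_forall fun θ _ x _ => ?_
    rw [Real.norm_eq_abs, abs_mul, abs_mul]
    have h1 := Real.abs_cos_le_one (x * Real.sin θ)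
    have h2 := Real.abs_sin_le_one θ
    have h3 : |Real.cos (x * Real.sin θ)| * |Real.sin θ| ≤ 1 :=
      mul_le_one₀ h1 (abs_nonneg _) h2
    exact mul_le_of_le_one_right (abs_nonneg _) h3
  · exact (by fun_prop : Continuous fun θ : ℝ => |w θ|).intervalIntegrable _ _
  · refine Filter.Eventually.of_forall fun θ _ x _ => ?_
    have h := ((hasDerivAt_id x).mul_const (Real.sin θ)).sin.const_mul (w θ)
    refine h.congr_deriv ?_
    simp

/-- the derivative of `J` -/
noncomputable def JD (s : ℝ) : ℝ :=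
  -((2 * Real.pi)⁻¹ * ∫ θ in (0:ℝ)..(2 * Real.pi), Real.sin θ * Real.sin (s * Real.sin θ))

theorem J_deriv (s : ℝ) : HasDerivAt J (JD s) s := by
  have h := (dcosw (w := fun _ => (1 : ℝ)) continuous_const s).const_mul (2 * Real.pi)⁻¹
  have e1 : J = fun s : ℝ => (2 * Real.pi)⁻¹ *
      ∫ θ in (0:ℝ)..(2 * Real.pi), (1 : ℝ) * Real.cos (s * Real.sin θ) := by
    ext s; simp only [J, one_mul]
  rw [e1]
  refine h.congr_deriv ?_
  rw [JD, ← mul_neg, ← intervalIntegral.integral_neg]
  congr 1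
  apply intervalIntegral.integral_congr
  intro θ _
  ring

theorem JD_deriv {s : ℝ} (hs : 0 < s) : HasDerivAt JD (-J s - JD s / s) s := by
  have h := ((dsinw (w := fun θ => Real.sin θ) Real.continuous_sin s).const_mul
    (2 * Real.pi)⁻¹).neg
  have e1 : JD = fun s : ℝ => -((2 * Real.pi)⁻¹ *
      ∫ θ in (0:ℝ)..(2 * Real.pi), Real.sin θ * Real.sin (s * Real.sin θ)) := by
    ext s; rfl
  rw [e1]
  refine h.congr_deriv ?_
  -- integration by parts
  have hp : ∫ θ in (0:ℝ)..(2 * Real.pi), (-(Real.sin θ) * Real.sin (s * Real.sin θ) +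
      Real.cos θ * (Real.cos (s * Real.sin θ) * (s * Real.cos θ))) = 0 := by
    have : ∀ θ ∈ uIcc 0 (2 * Real.pi), HasDerivAt
        (fun θ : ℝ => Real.cos θ * Real.sin (s * Real.sin θ))
        (-(Real.sin θ) * Real.sin (s * Real.sin θ) +
          Real.cos θ * (Real.cos (s * Real.sin θ) * (s * Real.cos θ))) θ := by
      intro θ _
      exact (Real.hasDerivAt_cos θ).mul (((Real.hasDerivAt_sin θ).const_mul s).sin)
    rw [intervalIntegral.integral_eq_sub_of_hasDerivAt this
      ((by fun_prop : Continuous fun θ : ℝ => (-(Real.sin θ) * Real.sin (s * Real.sin θ) +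
      Real.cos θ * (Real.cos (s * Real.sin θ) * (s * Real.cos θ)))).intervalIntegrable _ _)]
    simp
  have hc : ∀ f : ℝ → ℝ, Continuous f → IntervalIntegrable f volume 0 (2 * Real.pi) :=
    fun f hf => hf.intervalIntegrable _ _
  have h1 : ∫ θ in (0:ℝ)..(2 * Real.pi), (-(Real.sin θ) * Real.sin (s * Real.sin θ) +
      Real.cos θ * (Real.cos (s * Real.sin θ) * (s * Real.cos θ))) =
      -(∫ θ in (0:ℝ)..(2 * Real.pi), Real.sin θ * Real.sin (s * Real.sin θ)) +
      s * ((∫ θ in (0:ℝ)..(2 * Real.pi), Real.cos (s * Real.sin θ)) -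
        ∫ θ in (0:ℝ)..(2 * Real.pi), Real.sin θ * (Real.cos (s * Real.sin θ) * Real.sin θ)) := by
    rw [← intervalIntegral.integral_neg, ← intervalIntegral.integral_sub (hc _ (by fun_prop))
      (hc _ (by fun_prop)), ← intervalIntegral.integral_const_mul,
      ← intervalIntegral.integral_add (hc _ (by fun_prop)) (hc _ (by fun_prop))]
    apply intervalIntegral.integral_congr
    intro θ _
    have := Real.sin_sq_add_cos_sq θ
    simp only
    linear_combination (s * Real.cos (s * Real.sin θ)) * this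
  rw [h1] at hp
  simp only [J]
  set A := ∫ θ in (0:ℝ)..(2 * Real.pi), Real.cos (s * Real.sin θ)
  set B := ∫ θ in (0:ℝ)..(2 * Real.pi), Real.sin θ * Real.sin (s * Real.sin θ)
  set C := ∫ θ in (0:ℝ)..(2 * Real.pi), Real.sin θ * (Real.cos (s * Real.sin θ) * Real.sin θ)
  have hC : C = A - B / s := by
    field_simp
    linarith
  rw [hC]
  ring

/-- the energy -/
noncomputable def En (s : ℝ) : ℝ := s * (J s ^ 2 + JD s ^ 2) + J s * JD s + J s ^ 2 / (2 * s)

theorem En_deriv {s : ℝ} (hs : 0 < s) : HasDerivAt En (-(J s ^ 2 / (2 * s ^ 2))) s := by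
  have h1 := J_deriv s
  have h2 := JD_deriv hs
  have h3 := (((hasDerivAt_id s).mul ((h1.pow 2).add (h2.pow 2))).add (h1.mul h2)).add
    ((h1.pow 2).div ((hasDerivAt_id s).const_mul 2) (by simpa using hs.ne'))
  refine h3.congr_deriv ?_
  simp only [id, Pi.pow_apply, Pi.add_apply, Nat.cast_ofNat, Nat.add_one_sub_one, pow_one]
  field_simp
  ring

theorem En_anti : AntitoneOn En (Ici 2) := by
  have hd : ∀ s ∈ Ici (2 : ℝ), HasDerivAt En (-(J s ^ 2 / (2 * s ^ 2))) s := fun s hs =>
    En_deriv (by have : (2 : ℝ) ≤ s := hs; linarith)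
  apply antitoneOn_of_deriv_nonpos (convex_Ici 2)
  · exact fun s hs => (hd s hs).continuousAt.continuousWithinAt
  · intro s hs
    rw [interior_Ici, mem_Ioi] at hs
    exact (hd s (mem_Ici.2 (le_of_lt hs))).differentiableAt.differentiableWithinAt
  · intro s hs
    rw [interior_Ici, mem_Ioi] at hs
    rw [(hd s (mem_Ici.2 (le_of_lt hs))).deriv]
    have : 0 ≤ J s ^ 2 / (2 * s ^ 2) := by positivity
    linarith

theorem En_ge {s : ℝ} (hs : 0 < s) : s * J s ^ 2 ≤ En s := by
  have h : En s = s * (JD s + J s / (2 * s)) ^ 2 + s * J s ^ 2 + J s ^ 2 / (4 * s) := by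
    rw [En]; field_simp; ring
  rw [h]
  have h1 : 0 ≤ s * (JD s + J s / (2 * s)) ^ 2 := by positivity
  have h2 : 0 ≤ J s ^ 2 / (4 * s) := by positivity
  linarith

theorem ccvJ_on : ConcaveOn ℝ univ (fun x : ℝ => J x - x ^ 2 / 4) :=
  ⟨convex_univ, fun a _ b _ l m hl hm hlm => by
    simpa only [smul_eq_mul] using ccv_J (a := a) (b := b) hl hm hlm⟩

theorem cvx_cos : ConvexOn ℝ univ (fun x : ℝ => Real.cos x + x ^ 2 / 2) := by
  have h1 : ∀ x : ℝ, HasDerivAt (fun x : ℝ => Real.cos x + x ^ 2 / 2) (-Real.sin x + x) x := by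
    intro x
    have := (Real.hasDerivAt_cos x).add (((hasDerivAt_id x).pow 2).div_const 2)
    refine this.congr_deriv ?_
    simp
  have h2 : deriv (fun x : ℝ => Real.cos x + x ^ 2 / 2) = fun x => -Real.sin x + x := by
    ext x; exact (h1 x).deriv
  have h3 : ∀ x : ℝ, HasDerivAt (fun x : ℝ => -Real.sin x + x) (-Real.cos x + 1) x := by
    intro x
    exact ((Real.hasDerivAt_sin x).neg).add (hasDerivAt_id x)
  apply convexOn_univ_of_deriv2_nonneg
  · intro x; exact (h1 x).differentiableAt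
  · rw [h2]; intro x; exact (h3 x).differentiableAt
  · intro x
    show 0 ≤ deriv (deriv (fun x : ℝ => Real.cos x + x ^ 2 / 2)) x
    rw [h2, (h3 x).deriv]
    linarith [Real.cos_le_one x]

/-- the tangent inequalities at `2` -/
theorem J_tan (x : ℝ) : J x ≤ J 2 + JD 2 * (x - 2) + (x - 2) ^ 2 / 4 ∧
    J 2 + JD 2 * (x - 2) - (x - 2) ^ 2 / 4 ≤ J x := by
  have hpi := Real.pi_pos
  have hc : ∀ f : ℝ → ℝ, Continuous f → IntervalIntegrable f volume 0 (2 * Real.pi) :=
    fun f hf => hf.intervalIntegrable _ _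
  -- pointwise: |cos y - cos x + sin x (y - x)| ≤ (y - x)^2 / 2
  have hpt : ∀ u v : ℝ, |Real.cos v - (Real.cos u - Real.sin u * (v - u))| ≤ (v - u) ^ 2 / 2 := by
    intro u v
    rw [abs_le]
    constructor
    · -- convexity of cos + x^2/2 : f v ≥ f u + f' u (v - u)
      by_cases huv : u = v
      · subst huv; simp
      · have hd : HasDerivAt (fun x : ℝ => Real.cos x + x ^ 2 / 2) (-Real.sin u + u) u := by
          have := (Real.hasDerivAt_cos u).add (((hasDerivAt_id u).pow 2).div_const 2)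
          refine this.congr_deriv ?_
          simp
        rcases lt_or_gt_of_ne huv with h1 | h1
        · have h2 := cvx_cos.le_slope_of_hasDerivAt (mem_univ u) (mem_univ v) h1 hd
          rw [slope_def_field, le_div_iff₀ (by linarith)] at h2
          nlinarith
        · have h2 := cvx_cos.slope_le_of_hasDerivAt (mem_univ v) (mem_univ u) h1 hd
          rw [slope_def_field, div_le_iff₀ (by linarith)] at h2
          nlinarith
    · by_cases huv : u = v
      · subst huv; simp
      · have hd : HasDerivAt (fun x : ℝ => Real.cos x - x ^ 2 / 2) (-Real.sin u - u) u := by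
          have := (Real.hasDerivAt_cos u).sub (((hasDerivAt_id u).pow 2).div_const 2)
          refine this.congr_deriv ?_
          simp
        rcases lt_or_gt_of_ne huv with h1 | h1
        · have h2 := ccv_cos.slope_le_of_hasDerivAt (mem_univ u) (mem_univ v) h1 hd
          rw [slope_def_field, div_le_iff₀ (by linarith)] at h2
          nlinarith
        · have h2 := ccv_cos.le_slope_of_hasDerivAt (mem_univ v) (mem_univ u) h1 hd
          rw [slope_def_field, le_div_iff₀ (by linarith)] at h2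
          nlinarith
  have hint : J x - (J 2 + JD 2 * (x - 2)) = (2 * Real.pi)⁻¹ * ∫ θ in (0:ℝ)..(2 * Real.pi),
      (Real.cos (x * Real.sin θ) - (Real.cos (2 * Real.sin θ) -
        Real.sin (2 * Real.sin θ) * (x * Real.sin θ - 2 * Real.sin θ))) := by
    have e1 : ∫ θ in (0:ℝ)..(2 * Real.pi),
      (Real.cos (x * Real.sin θ) - (Real.cos (2 * Real.sin θ) -
        Real.sin (2 * Real.sin θ) * (x * Real.sin θ - 2 * Real.sin θ))) =
        (∫ θ in (0:ℝ)..(2 * Real.pi), Real.cos (x * Real.sin θ)) -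
        (∫ θ in (0:ℝ)..(2 * Real.pi), Real.cos (2 * Real.sin θ)) +
        (x - 2) * ∫ θ in (0:ℝ)..(2 * Real.pi), Real.sin θ * Real.sin (2 * Real.sin θ) := by
      rw [← intervalIntegral.integral_sub (hc _ (by fun_prop)) (hc _ (by fun_prop)),
        ← intervalIntegral.integral_const_mul,
        ← intervalIntegral.integral_add (hc _ (by fun_prop)) (hc _ (by fun_prop))]
      apply intervalIntegral.integral_congr
      intro θ _
      ring
    rw [e1]
    simp only [J, JD]
    ring
  have hbd : |∫ θ in (0:ℝ)..(2 * Real.pi),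
      (Real.cos (x * Real.sin θ) - (Real.cos (2 * Real.sin θ) -
        Real.sin (2 * Real.sin θ) * (x * Real.sin θ - 2 * Real.sin θ)))| ≤
      (x - 2) ^ 2 / 2 * Real.pi := by
    calc _ ≤ ∫ θ in (0:ℝ)..(2 * Real.pi), |Real.cos (x * Real.sin θ) - (Real.cos (2 * Real.sin θ) -
        Real.sin (2 * Real.sin θ) * (x * Real.sin θ - 2 * Real.sin θ))| :=
          intervalIntegral.abs_integral_le_integral_abs (by positivity)
      _ ≤ ∫ θ in (0:ℝ)..(2 * Real.pi), (x - 2) ^ 2 / 2 * Real.sin θ ^ 2 := by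
          apply intervalIntegral.integral_mono_on (by positivity) (hc _ (by fun_prop))
            (hc _ (by fun_prop))
          intro θ _
          refine (hpt _ _).trans (le_of_eq ?_)
          ring
      _ = (x - 2) ^ 2 / 2 * Real.pi := by
          rw [intervalIntegral.integral_const_mul, integral_sin_sq]
          simp
  have h2 : |J x - (J 2 + JD 2 * (x - 2))| ≤ (x - 2) ^ 2 / 4 := by
    rw [hint, abs_mul, abs_of_pos (by positivity : (0:ℝ) < (2 * Real.pi)⁻¹)]
    calc (2 * Real.pi)⁻¹ * _ ≤ (2 * Real.pi)⁻¹ * ((x - 2) ^ 2 / 2 * Real.pi) :=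
          mul_le_mul_of_nonneg_left hbd (by positivity)
      _ = (x - 2) ^ 2 / 4 := by field_simp; ring
  rw [abs_le] at h2
  constructor <;> linarith [h2.1, h2.2]

theorem st_DEC (hJT : ST_JT) : ST_DEC := by
  have hJ2 := hJT 6 2
  have hJ3 := hJT 6 (201 / 100)
  simp only [Finset.sum_range_succ, Finset.sum_range_zero] at hJ2 hJ3
  norm_num [Nat.factorial] at hJ2 hJ3
  rw [abs_le] at hJ2 hJ3
  have ht := J_tan (201 / 100)
  have hE : En 2 ≤ 6724 / 10000 := by
    have a1 : 2238 / 10000 ≤ J 2 := by linarith [hJ2.1]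
    have a2 : J 2 ≤ 2240 / 10000 := by linarith [hJ2.2]
    have a3 : JD 2 ≤ -573 / 1000 := by linarith [ht.1, ht.2, hJ3.1, hJ3.2, hJ2.1, hJ2.2]
    have a4 : -581 / 1000 ≤ JD 2 := by linarith [ht.1, ht.2, hJ3.1, hJ3.2, hJ2.1, hJ2.2]
    rw [En]
    have b1 : J 2 ^ 2 ≤ (2240 / 10000) ^ 2 := pow_le_pow_left₀ (by linarith) a2 2
    have b2 : JD 2 ^ 2 ≤ (581 / 1000) ^ 2 := by nlinarith
    have b3 : J 2 * JD 2 ≤ -(2238 / 10000) * (573 / 1000) := by nlinarith
    nlinarith
  intro s hs
  have hs0 : 0 < s := by linarith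
  have h1 : s * J s ^ 2 ≤ 6724 / 10000 :=
    ((En_ge hs0).trans (En_anti (mem_Ici.2 le_rfl) (mem_Ici.2 hs) hs)).trans hE
  have hsq : 0 < √s := Real.sqrt_pos.2 hs0
  rw [le_div_iff₀ hsq]
  apply le_of_not_gt
  intro hcon
  have h2 : (82 / 100 : ℝ) ^ 2 < (|J s| * √s) ^ 2 := pow_lt_pow_left₀ hcon (by norm_num) two_ne_zero
  rw [mul_pow, sq_abs, Real.sq_sqrt hs0.le] at h2
  norm_num at h2
  linarith

end Pool.Agent.Helper16.RC
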